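import Pool.Agent.MP_52bf41_ag.H4.M3Geo

/-! Two standard atlases on one curve over an Artinian local ring. -/

open AlgebraicGeometry CategoryTheory IsLocalRing Polynomial Matrix

namespace Pool.Agent.MP_52bf41_ag.H4

open H12

variable {A : Type} [CommRing A] {D : ℕ} {F : Fam (Spec (.of A))} {q t q' t' : Fin D → A}

/-- A function with at most one simple pole. -/
theorem pole_one (hP : SPole) (S : Std F q t) (hq : Good q) (a0 : Option (Fin D))
    (G : Γ(F.C, V S a0)) (ρ : Γ(F.C, S.O a0))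
    (h : res (inf_le_left.trans (O0_le_V S a0) : S.O0 ⊓ S.O a0 ≤ _) G *
      res inf_le_right (S.s a0) = res inf_le_right ρ) :
    ∃ c lam, res (O0_le_V S a0) G = alg F.π _ c + S.u a0 * alg F.π _ lam ∧
      ∀ h : none ≠ a0, c = ev (F.σ 2) (S.h2.trans ((F.σ 2).preimage_mono (O_le_V S h))) G := by
  have h1 : ∀ a, ∃ b' : Γ(F.C, S.O a),
      res (inf_le_left : S.O0 ⊓ S.O a ≤ _) (res (O0_le_V S a0) G) *
        res inf_le_right (S.s a) ^ (if a = a0 then 1 else 0) = res inf_le_right b' ∧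
      ∀ h : a ≠ a0, b' = res (O_le_V S h) G := by
    intro a
    by_cases e : a = a0
    · subst e
      exact ⟨ρ, by simpa using h, fun h => absurd rfl h⟩
    · exact ⟨res (O_le_V S e) G, by simp [e], fun _ => rfl⟩
  choose b' hb' hb'' using h1
  obtain ⟨c, P, e, hd, hc⟩ := hP A D F q t S hq _ _ b' hb'
  refine ⟨c, (P a0).coeff 0, ?_, fun h => ?_⟩
  · rw [e, comb, Finset.sum_eq_single a0]
    · have := hd a0
      rw [if_pos rfl, mem_degreeLT] at this
      rw [eq_C_of_degree_le_zero (p := P a0) (Nat.WithBot.lt_one_iff_le_zero.mp this)]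
      simp
    · intro a _ ha
      have := hd a
      rw [if_neg ha, mem_degreeLT] at this
      have h0 : P a = 0 := degree_eq_bot.mp (Nat.WithBot.lt_zero_iff.mp this)
      simp [h0]
    · simp
  · rw [hc (if_neg h), hb'' none h, ev_res]

theorem V_inf_le (S : Std F q t) (a : Option (Fin D)) : V S a ⊓ S.O a ≤ S.O0 ⊓ S.O a := by
  intro y hy
  refine ⟨?_, hy.2⟩
  by_contra h0
  exact (not_mem_V S).mpr ⟨hy.2, h0⟩ hy.1

theorem us_res (S : Std F q t) {a : Option (Fin D)} {G : Γ(F.C, V S a)}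
    (hG : res (O0_le_V S a) G = S.u a) {N : F.C.Opens} (h1 : N ≤ V S a) (h2 : N ≤ S.O a) :
    res h1 G * res h2 (S.s a) = 1 := by
  have := congrArg (res ((le_inf h1 h2).trans (V_inf_le S a))) (S.us a)
  rw [← hG] at this
  simpa using this

theorem exists_u (hE : SExt) (S : Std F q t) (hq : Good q) (a : Option (Fin D)) :
    ∃ G : Γ(F.C, V S a), res (O0_le_V S a) G = S.u a := by
  obtain ⟨h1, h2, h3⟩ := hE A D F q t S hq
  refine exists_ext S a _ fun b hb => ?_
  rcases a with _ | i <;> rcases b with _ | l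
  · exact absurd rfl hb
  · exact ⟨_, h1 l⟩
  · obtain ⟨v, hv⟩ := h2 i
    exact ⟨_, hv⟩
  · exact h3 i l fun e => hb (e ▸ rfl)

/-- `Z` extends the coordinate `z` of the atlas `S` to the complement `W` of the point at
infinity. -/
structure ZD (S : Std F q t) (W : F.C.Opens) (Z : Γ(F.C, W)) : Prop where
  le0 : S.O0 ≤ W
  le : ∀ l, S.O (some l) ≤ W
  z0 : res le0 Z = S.u none
  zl : ∀ l, res (le l) Z = alg F.π _ (q l) + alg F.π _ (t l) * S.s (some l)
  out : ∀ y ∈ S.O none, y ∉ S.O0 → y ∉ W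

theorem zd_of (hE : SExt) (hD : SDense) (S : Std F q t) (hq : Good q) {W : F.C.Opens}
    {Z : Γ(F.C, W)} (hW : V S none ≤ W) (z0 : res ((O0_le_V S none).trans hW) Z = S.u none)
    (out : ∀ y ∈ S.O none, y ∉ S.O0 → y ∉ W) : ZD S W Z := by
  refine ⟨_, fun l => (O_le_V S (by simp)).trans hW, z0, fun l => ?_, out⟩
  apply dense_eq (hD A D F q t S hq)
  have := congrArg (res (le_of_eq (inf_comm (S.O (some l)) S.O0))) ((hE A D F q t S hq).1 l)
  rw [← z0] at this
  simpa using this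

theorem ZD.val {S : Std F q t} {W : F.C.Opens} {Z : Γ(F.C, W)} (h : ZD S W Z) {l : Fin D}
    {y : F.C} (hy : y ∈ S.O (some l)) (h0 : y ∉ S.O0) :
    y ∉ F.C.basicOpen (Z - alg F.π W (q l)) := by
  rw [← mem_basicOpen_res (h.le l) _ hy, map_sub, h.zl, res_alg, add_sub_cancel_left]
  exact not_mem_basicOpen_mul _ fun hs => h0 ((mem_O0_iff S hy).mpr hs)

theorem ZD.mem0 {S : Std F q t} {W : F.C.Opens} {Z : Γ(F.C, W)} (h : ZD S W Z) {y : F.C}
    (hy : y ∈ W) (hv : ∀ l, y ∈ S.O (some l) → y ∈ F.C.basicOpen (Z - alg F.π W (q l))) :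
    y ∈ S.O0 := by
  by_contra h0
  obtain ⟨_ | l, ha⟩ := exists_chart S h0
  · exact h.out y ha h0 hy
  · exact h.val ha h0 (hv l ha)

theorem ZD.iff0 {S : Std F q t} {W : F.C.Opens} {Z : Γ(F.C, W)} (h : ZD S W Z) {y : F.C}
    (hy : y ∈ S.O0) (c : A) : y ∈ F.C.basicOpen (S.u none - alg F.π _ c) ↔
      y ∈ F.C.basicOpen (Z - alg F.π W c) := by
  rw [← mem_basicOpen_res h.le0 _ hy, map_sub, h.z0, res_alg]

theorem mem_prod {C : Scheme.{0}} {U : C.Opens} {ι : Type} (J : Finset ι) (b : ι → Γ(C, U))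
    {y : C} (hy : y ∈ U) (h : ∀ j ∈ J, y ∈ C.basicOpen (b j)) :
    y ∈ C.basicOpen (∏ j ∈ J, b j) := by
  obtain ⟨K, _, e, he⟩ := exists_val hy
  by_contra h0
  rw [← he, map_prod, Finset.prod_eq_zero_iff] at h0
  obtain ⟨j, hj, h0⟩ := h0
  exact (he _).mp h0 (h j hj)

theorem mem_chart (S : Std F q t) {y : F.C} (hy : y ∈ S.O0) {l : Fin D}
    (h1 : y ∈ F.C.basicOpen (S.u (some l)))
    (h2 : ∀ k, k ≠ l → y ∈ F.C.basicOpen (S.u none - alg F.π _ (q k))) : y ∈ S.O (some l) := by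
  have : y ∈ S.O0 ⊓ S.O (some l) := by
    rw [S.inter0]
    simp only [hpol, map_mul, map_prod, map_sub, MvPolynomial.eval₂Hom_X', MvPolynomial.eval₂Hom_C]
    exact mem_basicOpen_mul.mpr ⟨h1, mem_prod _ _ hy fun k hk => h2 k (Finset.mem_erase.mp hk).1⟩
  exact this.2

variable [IsLocalRing A] [IsArtinianRing A]

theorem pt_mem (S : Std F q t) {a : Option (Fin D)} {τ : Spec (.of A) ⟶ F.C}
    (h : ⊤ ≤ τ ⁻¹ᵁ S.O a) (hs : ev τ h (S.s a) = 0) :
    τ (closedPoint A) ∈ S.O a ∧ τ (closedPoint A) ∉ S.O0 := by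
  have h1 : τ (closedPoint A) ∈ S.O a := h (Set.mem_univ _)
  refine ⟨h1, fun h0 => ?_⟩
  rw [mem_O0_iff S h1, ← isUnit_ev_iff τ h, hs] at h0
  exact not_isUnit_zero h0

theorem pt_uniq (hS : SSec) (S : Std F q t) (hq : Good q) {a : Option (Fin D)} {y y' : F.C}
    (h : y ∈ S.O a ∧ y ∉ S.O0) (h' : y' ∈ S.O a ∧ y' ∉ S.O0) : y = y' :=
  uniq_pt (S.aff a) (hS A D F q t S hq a).2.1.2 h.1 h'.1
    (fun e => h.2 ((mem_O0_iff S h.1).mpr e)) fun e => h'.2 ((mem_O0_iff S h'.1).mpr e)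

/-- A function vanishing along the pole of `u a` cancels that pole. -/
theorem cancel_pole (hS : SSec) (S : Std F q t) (hq : Good q) {a : Option (Fin D)}
    {G : Γ(F.C, V S a)} (hG : res (O0_le_V S a) G = S.u a) {τ : Spec (.of A) ⟶ F.C}
    (hτ : τ ≫ F.π = 𝟙 _) (h : ⊤ ≤ τ ⁻¹ᵁ S.O a) (hs : ev τ h (S.s a) = 0) {U : F.C.Opens}
    (hU : ⊤ ≤ τ ⁻¹ᵁ U) {r : Γ(F.C, U)} (hr : ev τ hU r = 0) :
    ∃ ρ : Γ(F.C, U), res (inf_le_left : U ⊓ V S a ≤ _) ρ =
      res inf_le_left r * res inf_le_right G := by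
  obtain ⟨N, h1, h2, r', hx, e⟩ := kerloc (S.aff a) (hS A D F q t S hq a).2.1.2 hτ h hs hU hr
  obtain ⟨ρ, hρ, -⟩ := exists_glue₂ (V := U) (inf_le_left : U ⊓ V S a ≤ _) h1 (fun y hy => by
      by_cases hv : y ∈ V S a
      · exact Or.inl ⟨hy, hv⟩
      · exact Or.inr (pt_uniq hS S hq ((not_mem_V S).mp hv) (pt_mem S h hs) ▸ hx))
    (res inf_le_left r * res inf_le_right G) r' (by
      have e1 := congrArg (res (inf_le_right : U ⊓ V S a ⊓ N ≤ N)) e
      have e2 := us_res S hG (N := U ⊓ V S a ⊓ N) (inf_le_left.trans inf_le_right)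
        (inf_le_right.trans h2)
      simp only [map_mul, res_res] at e1 ⊢
      rw [e1, mul_assoc, mul_comm (res _ (S.s a)), e2, mul_one])
  exact ⟨ρ, hρ⟩

theorem exists_zd (hE : SExt) (hS : SSec) (hD : SDense) (hP : SPole) (S : Std F q t)
    (S' : Std F q' t') (hq : Good q) (hq' : Good q') :
    ∃ (W : F.C.Opens) (Z : Γ(F.C, W)), ZD S W Z ∧ ZD S' W Z := by
  obtain ⟨Z, hZ⟩ := exists_u hE S' hq' none
  have hp := pt_mem S S.h2 S.e2
  have hp' := pt_mem S' S'.h2 S'.e2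
  have hW : V S none ≤ V S' none := fun y hy => by
    by_contra h
    exact (not_mem_V S).mpr (pt_uniq hS S' hq' ((not_mem_V S').mp h) hp' ▸ hp) hy
  refine ⟨_, Z, zd_of hE hD S hq hW ?_ fun y hy h0 => ?_,
    zd_of hE hD S' hq' le_rfl hZ fun y hy h0 => (not_mem_V S').mpr ⟨hy, h0⟩⟩
  · obtain ⟨ρ, hρ⟩ := cancel_pole hS S' hq' hZ (F.sec 2) S'.h2 S'.e2 S.h2 S.e2
    obtain ⟨c, lam, e, -⟩ := pole_one hP S hq none (res hW Z) ρ (by
      have := congrArg (res (le_inf inf_le_right (inf_le_left.trans ((O0_le_V S none).trans hW)) :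
        S.O0 ⊓ S.O none ≤ _)) hρ
      simp only [map_mul, res_res] at this ⊢
      rw [this, mul_comm])
    rw [res_res] at e
    have e0 := congrArg (ev (F.σ 0) S.h0) e
    have e1 := congrArg (ev (F.σ 1) S.h1) e
    have f0 := S'.e0
    have f1 := S'.e1
    rw [← hZ, ev_res] at f0 f1
    simp only [map_add, map_mul, ev_res, ev_alg _ (F.sec _), S.e0, S.e1, f0, f1] at e0 e1
    have hc : c = 0 := by simpa using e0.symm
    have hl : lam = 1 := by simpa [hc] using e1.symm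
    rw [e, hc, hl]
    simp
  · exact (not_mem_V S').mpr (pt_uniq hS S hq ⟨hy, h0⟩ hp ▸ hp')

theorem nil_main (S : Std F q t) {N : F.C.Opens} (hN : N ≤ S.O0) {y : F.C} (hy : y ∈ N)
    (hv : ∀ i, y ∉ F.C.basicOpen (S.u none - alg F.π _ (q i)) →
      y ∉ F.C.basicOpen (S.u (some i))) (c : A)
    (h : IsNilpotent (res hN (S.u none - alg F.π _ c))) : False := by
  obtain ⟨m, hm⟩ := h
  obtain ⟨g, n, hg, e0⟩ := kill_of_res S.aff0 hN hy (b := (S.u none - alg F.π _ c) ^ m)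
    (by rw [map_pow, hm])
  obtain ⟨K, _, e, he⟩ := exists_val (hN hy)
  exact not_nil_main S.pres e (fun i hi => (he _).mpr (hv i ((he _).mp hi))) c g n m
    (fun h0 => (he _).mp h0 hg) e0

theorem nil_tail (S : Std F q t) {N : F.C.Opens} (hN : N ≤ S.O0) {y : F.C} (hy : y ∈ N)
    {l : Fin D} (hv : y ∉ F.C.basicOpen (S.u none - alg F.π _ (q l)))
    (h : IsNilpotent (res hN (S.u (some l)))) : False := by
  obtain ⟨m, hm⟩ := h
  obtain ⟨g, n, hg, e0⟩ := kill_of_res S.aff0 hN hy (b := S.u (some l) ^ m)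
    (by rw [map_pow, hm])
  obtain ⟨K, _, e, he⟩ := exists_val (hN hy)
  exact not_nil_tail S.pres e l ((he _).mpr hv) g n m (fun h0 => (he _).mp h0 hg) e0

theorem ZD.cmp {S : Std F q t} {S' : Std F q' t'} {W : F.C.Opens} {Z : Γ(F.C, W)}
    (h : ZD S W Z) (h' : ZD S' W Z) {i : Fin D} {N : F.C.Opens} (h1 : N ≤ S.O0)
    (h2 : N ≤ S'.O (some i)) :
    res h1 (S.u none) = alg F.π N (q' i) + alg F.π N (t' i) * res h2 (S'.s (some i)) := by
  have := congrArg (res h2) (h'.zl i)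
  rw [← h.z0]
  simpa using this

/-- A pole without partner lies on the main component. -/
theorem unit_of_unmatched (hS : SSec) {S : Std F q t} {S' : Std F q' t'} (hq : Good q)
    {W : F.C.Opens} {Z : Γ(F.C, W)} (h : ZD S W Z) (h' : ZD S' W Z) {l : Fin D}
    (hl : ∀ i, IsUnit (q' i - q l)) : IsUnit (t l) := by
  by_contra ht
  obtain ⟨τ, hτ, -, hs⟩ := (hS A D F q t S hq (some l)).2.2
  obtain ⟨hx, hx0⟩ := pt_mem S hτ hs
  have hW := h.le l hx
  have hv : ∀ i, τ (closedPoint A) ∈ F.C.basicOpen (Z - alg F.π W (q' i)) := fun i =>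
    (val_iff hW (h.val hx hx0) _).mpr (by simpa using (hl i).neg)
  have h0 := h'.mem0 hW fun i _ => hv i
  refine nil_main S' (N := S'.O0 ⊓ S.O (some l)) inf_le_left ⟨h0, hx⟩
    (fun i hi => absurd ((h'.iff0 h0 _).mpr (hv i)) hi) (q l) ?_
  rw [map_sub, h'.cmp h inf_le_left inf_le_right, res_alg, add_sub_cancel_left]
  exact (Commute.all _ _).isNilpotent_mul_right ((isNilpotent_of_not_isUnit ht).map _)

theorem mem_of_unmatched {S : Std F q t} {S' : Std F q' t'} {W : F.C.Opens} {Z : Γ(F.C, W)}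
    (h : ZD S W Z) (h' : ZD S' W Z) {i l : Fin D} (hi : ∀ k, IsUnit (q' i - q k))
    (ht : IsUnit (t l)) {x : F.C} (hx : x ∈ S'.O (some i)) (hx0 : x ∉ S'.O0) :
    x ∈ S.O (some l) := by
  have hW := h'.le i hx
  have hv : ∀ k, x ∈ F.C.basicOpen (Z - alg F.π W (q k)) := fun k =>
    (val_iff hW (h'.val hx hx0) _).mpr (hi k)
  have h0 := h.mem0 hW fun k _ => hv k
  refine mem_chart S h0 ?_ fun k _ => (h.iff0 h0 _).mpr (hv k)
  have := (mem_alg_iff (p := F.π) h0 _).mpr ht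
  rw [← pres_rel S.pres l] at this
  exact (mem_basicOpen_mul.mp this).2

theorem unit_of_sub {a b c : A} (h : IsUnit (b - c)) (h' : ¬IsUnit (a - b)) : IsUnit (a - c) := by
  have := isUnit_or_isUnit_of_isUnit_add (a := a - c) (b := -(a - b)) (by
    rwa [show a - c + -(a - b) = b - c by ring])
  exact this.resolve_right fun e => h' (by simpa using e.neg)

theorem mem_of_matched (hD : SDense) {S : Std F q t} {S' : Std F q' t'} (hq : Good q)
    (hq' : Good q') {W : F.C.Opens} {Z : Γ(F.C, W)} (h : ZD S W Z) (h' : ZD S' W Z)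
    {i l : Fin D} (hi : ¬IsUnit (q' i - q l)) {x : F.C} (hx : x ∈ S'.O (some i))
    (hx0 : x ∉ S'.O0) : x ∈ S.O (some l) := by
  by_contra hn
  have hW := h'.le i hx
  have hv : ∀ k, k ≠ l → x ∈ F.C.basicOpen (Z - alg F.π W (q k)) := fun k hk =>
    (val_iff hW (h'.val hx hx0) _).mpr (unit_of_sub (hq.1 l k hk.symm) hi)
  have h0 := h.mem0 hW fun k hk => hv k fun e => hn (e ▸ hk)
  have hw : x ∉ F.C.basicOpen (S.u (some l)) := fun e =>
    hn (mem_chart S h0 e fun k hk => (h.iff0 h0 _).mpr (hv k hk))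
  have hz : x ∉ F.C.basicOpen (S.u none - alg F.π _ (q l)) := fun e =>
    hi ((val_iff hW (h'.val hx hx0) _).mp ((h.iff0 h0 _).mp e))
  have hc := h.cmp h' (N := S.O0 ⊓ S'.O (some i)) inf_le_left inf_le_right
  by_cases ht : IsUnit (t' i)
  · have htl : ¬IsUnit (t l) := fun e => by
      have := (mem_alg_iff (p := F.π) h0 _).mpr e
      rw [← pres_rel S.pres l] at this
      exact hw (mem_basicOpen_mul.mp this).2
    refine nil_tail S (N := S.O0 ⊓ S'.O (some i)) inf_le_left ⟨h0, hx⟩ hz ?_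
    have hr := congrArg (res (inf_le_left : S.O0 ⊓ S'.O (some i) ≤ _)) (pres_rel S.pres l)
    rw [map_mul, map_sub, hc, res_alg, res_alg] at hr
    have h1 : IsNilpotent (alg F.π (S.O0 ⊓ S'.O (some i)) (t l) -
        alg F.π _ (q' i - q l) * res inf_le_left (S.u (some l))) :=
      (Commute.all _ _).isNilpotent_sub ((isNilpotent_of_not_isUnit htl).map _)
        ((Commute.all _ _).isNilpotent_mul_right ((isNilpotent_of_not_isUnit hi).map _))
    obtain ⟨m, hm⟩ := h1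
    refine ⟨m, dense_eq (hD A D F q' t' S' hq') ?_⟩
    have e1 : alg F.π (S.O0 ⊓ S'.O (some i)) (t l) -
        alg F.π _ (q' i - q l) * res inf_le_left (S.u (some l)) =
        (alg F.π _ (t' i) * res inf_le_right (S'.s (some i))) *
          res inf_le_left (S.u (some l)) := by
      rw [← hr, map_sub]
      ring
    rw [e1, mul_pow] at hm
    have h2 := congrArg (res (inf_le_left : S.O0 ⊓ S'.O (some i) ⊓ S'.O0 ≤ _)) hm
    rw [map_mul, map_zero] at h2
    rw [map_zero]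
    refine (IsUnit.mul_right_eq_zero ?_).mp h2
    rw [map_pow, map_mul, res_alg, res_res]
    refine ((ht.map _).mul (isUnit_of_le_basicOpen _ _ ?_)).pow m
    rw [← S'.inter]
    exact le_inf inf_le_right (inf_le_left.trans inf_le_right)
  · refine nil_main S (N := S.O0 ⊓ S'.O (some i)) inf_le_left ⟨h0, hx⟩ (fun k hk => ?_) (q' i) ?_
    · by_cases e : k = l
      · exact e ▸ hw
      · exact absurd ((h.iff0 h0 _).mpr (hv k e)) hk
    · rw [map_sub, hc, res_alg, add_sub_cancel_left]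
      exact (Commute.all _ _).isNilpotent_mul_right ((isNilpotent_of_not_isUnit ht).map _)

theorem exists_perm (hS : SSec) (hD : SDense) {S : Std F q t} {S' : Std F q' t'} (hq : Good q)
    (hq' : Good q') {W : F.C.Opens} {Z : Γ(F.C, W)} (h : ZD S W Z) (h' : ZD S' W Z) :
    ∃ σ : Equiv.Perm (Fin D), ∀ i, ∀ x ∈ S'.O (some i), x ∉ S'.O0 → x ∈ S.O (some (σ i)) := by
  obtain ⟨σ, hσ⟩ := Equiv.Perm.exists_extending_pair
    (f := fun p : {p : Fin D × Fin D // ¬IsUnit (q' p.1 - q p.2)} => p.1.1) (g := fun p => p.1.2)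
    (by
      rintro ⟨⟨i, l⟩, h1⟩ ⟨⟨i', l'⟩, h2⟩ (rfl : i = i')
      by_contra e
      exact h2 (unit_of_sub (hq.1 l l' fun e' => e (by simp [e'])) h1))
    (by
      rintro ⟨⟨i, l⟩, h1⟩ ⟨⟨i', l'⟩, h2⟩ (rfl : l = l')
      by_contra e
      have := unit_of_sub (a := q l) (hq'.1 i i' fun e' => e (by simp [e']))
        (fun e' => h1 (by simpa using e'.neg))
      exact h2 (by simpa using this.neg))
  refine ⟨σ, fun i x hx hx0 => ?_⟩
  by_cases e : ∀ k, IsUnit (q' i - q k)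
  · refine mem_of_unmatched h h' e (unit_of_unmatched hS hq h h' fun j => ?_) hx hx0
    by_contra hj
    have : j = i := σ.injective (hσ ⟨(j, σ i), hj⟩)
    exact hj (this ▸ e _)
  · obtain ⟨k, hk⟩ := not_forall.mp e
    rw [show σ i = k from hσ ⟨(i, k), hk⟩]
    exact mem_of_matched hD hq hq' h h' hk hx hx0

/-- The Moebius relation between `w'_i` and `w_l`. -/
theorem moebius (hE : SExt) (hS : SSec) (hD : SDense) (hP : SPole) (S : Std F q t)
    (S' : Std F q' t') (hq : Good q) (hq' : Good q') {i l : Fin D}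
    (hil : ∀ x ∈ S'.O (some i), x ∉ S'.O0 → x ∈ S.O (some l)) :
    ∃ ν lam : A, res (inf_le_left : S.O0 ⊓ S'.O0 ≤ _) (1 - alg F.π _ ν * S.u (some l)) *
      res inf_le_right (S'.u (some i)) = res inf_le_left (alg F.π _ lam * S.u (some l)) := by
  obtain ⟨τ, hτ, hsec, hs⟩ := (hS A D F q' t' S' hq' (some i)).2.2
  have hx := pt_mem S' hτ hs
  have hU : ⊤ ≤ τ ⁻¹ᵁ S.O (some l) := top_le_preimage τ (hil _ hx.1 hx.2)
  obtain ⟨W', hW'⟩ := exists_u hE S' hq' (some i)
  obtain ⟨W, hW⟩ := exists_u hE S hq (some l)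
  obtain ⟨ρ, hρ⟩ := cancel_pole hS S' hq' hW' hsec hτ hs hU
    (r := S.s (some l) - alg F.π _ (ev τ hU (S.s (some l))))
    (by rw [map_sub, ev_alg τ hsec, sub_self])
  set ν := ev τ hU (S.s (some l))
  obtain ⟨G, hG1, hG2⟩ := exists_glue₂ (V := V S (some l))
    (inf_le_left : V S (some l) ⊓ V S' (some i) ≤ _)
    (inf_le_left : V S (some l) ⊓ S.O (some l) ≤ _) (fun y hy => by
      by_cases hv : y ∈ V S' (some i)
      · exact Or.inl ⟨hy, hv⟩
      · obtain ⟨h1, h2⟩ := (not_mem_V S').mp hv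
        exact Or.inr ⟨hy, hil y h1 h2⟩)
    (res inf_le_left (1 - alg F.π _ ν * W) * res inf_le_right W')
    (res inf_le_left W * res inf_le_right ρ) (by
      have e1 := congrArg (res (le_inf (inf_le_right.trans inf_le_right)
        (inf_le_left.trans inf_le_right) :
        V S (some l) ⊓ V S' (some i) ⊓ (V S (some l) ⊓ S.O (some l)) ≤ _)) hρ
      have e2 := us_res S hW (N := V S (some l) ⊓ V S' (some i) ⊓ (V S (some l) ⊓ S.O (some l)))
        (inf_le_left.trans inf_le_left) (inf_le_right.trans inf_le_right)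
      simp only [map_mul, map_sub, map_one, res_res, res_alg] at e1 ⊢
      rw [e1]
      linear_combination (-res _ W') * e2)
  obtain ⟨c, lam, e, hc⟩ := pole_one hP S hq (some l) G ρ (by
    have e1 := congrArg (res (le_inf (inf_le_left.trans (O0_le_V S _)) inf_le_right :
      S.O0 ⊓ S.O (some l) ≤ _)) hG2
    have e2 := us_res S hW (N := S.O0 ⊓ S.O (some l)) (inf_le_left.trans (O0_le_V S _))
      inf_le_right
    simp only [map_mul, res_res] at e1
    rw [e1]
    linear_combination (res _ ρ) * e2)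
  have hc0 : c = 0 := by
    have h2 : ⊤ ≤ F.σ 2 ⁻¹ᵁ (V S (some l) ⊓ V S' (some i)) := top_le_preimage _
      ⟨O_le_V S (by simp) (pt_mem S S.h2 S.e2).1, O_le_V S' (by simp) (pt_mem S' S'.h2 S'.e2).1⟩
    have e1 := congrArg (ev (F.σ 2) h2) hG1
    obtain ⟨v, hv⟩ := (hE A D F q' t' S' hq').2.1 i
    have e2 : res (O_le_V S' (a := some i) (b := none) (by simp)) W' = S'.s none * v := by
      apply dense_eq (hD A D F q' t' S' hq')
      have := congrArg (res (le_of_eq (inf_comm (S'.O none) S'.O0))) hv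
      rw [← hW'] at this
      simpa using this
    have e3 := congrArg (ev (F.σ 2) S'.h2) e2
    rw [map_mul, S'.e2, zero_mul, ev_res] at e3
    rw [map_mul, ev_res, ev_res, ev_res, e3, mul_zero] at e1
    rw [hc (by simp), e1]
  refine ⟨ν, lam, ?_⟩
  have e1 := congrArg (res (inf_le_inf (O0_le_V S _) (O0_le_V S' _) :
    S.O0 ⊓ S'.O0 ≤ V S (some l) ⊓ V S' (some i))) hG1
  have e2 := congrArg (res (inf_le_left : S.O0 ⊓ S'.O0 ≤ _)) e
  rw [← hW, ← hW']
  rw [← hW, hc0] at e2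
  simp only [map_mul, map_sub, map_one, map_zero, zero_add, res_res, res_alg] at e1 e2 ⊢
  rw [← e1, e2, mul_comm]

theorem m3 (hE : SExt) (hS : SSec) (hD : SDense) (hP : SPole) : SM3 := by
  intro A _ _ _ D F q t q' t' S S' hq hq'
  obtain ⟨W, Z, h, h'⟩ := exists_zd hE hS hD hP S S' hq hq'
  refine ⟨by rw [← h.z0, ← h'.z0, res_res, res_res], ?_⟩
  obtain ⟨σ, hσ⟩ := exists_perm hS hD hq hq' h h'
  choose ν lam hm using fun i => moebius hE hS hD hP S S' hq hq' (hσ i)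
  obtain ⟨γ, h0, h1, h2⟩ := exists_gamma S.pres hq σ ν lam
  refine ⟨γ, h0, fun a => Fin.cases ?_ (fun i => ?_) a⟩
  · simp [yv]
  · rw [h1, h2, ← Finset.mul_prod_erase _ _ (Finset.mem_univ i), map_mul, ← hm i, map_mul]
    simp only [yv, Fin.cons_succ]
    ring

end Pool.Agent.MP_52bf41_ag.H4
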