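import Pool.Agent.MP_52bf41_ag.H12.Spec
import Pool.Agent.MP_52bf41_ag.H12.Thick

/-! Algebraic lemmas for the comparison of two standard atlases. -/

open AlgebraicGeometry CategoryTheory IsLocalRing Polynomial Matrix

namespace Pool.Agent.MP_52bf41_ag.H4

open H12

section Alg

variable {A B : Type} [CommRing A] [CommRing B] {D : ℕ} {φ : A →+* B}
  {u : Option (Fin D) → B} {q t : Fin D → A}

theorem pres_rel (h : Pres φ u q t) (i : Fin D) :
    (u none - φ (q i)) * u (some i) = φ (t i) := by
  have := (h.2 (rel q t i)).mpr (Ideal.subset_span ⟨i, rfl⟩)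
  simpa [rel, sub_eq_zero] using this

theorem pres_lift (h : Pres φ u q t) {R : Type} [CommRing R] (χ : A →+* R)
    (v : Option (Fin D) → R) (hv : ∀ i, (v none - χ (q i)) * v (some i) = χ (t i)) :
    ∃ ψ : B →+* R, (∀ a, ψ (φ a) = χ a) ∧ ∀ a, ψ (u a) = v a := by
  let f : MvPolynomial (Option (Fin D)) A →+* B := MvPolynomial.eval₂Hom φ u
  let g : MvPolynomial (Option (Fin D)) A →+* R := MvPolynomial.eval₂Hom χ v
  have hk : RingHom.ker f ≤ RingHom.ker g := by
    intro p hp
    have h1 : Ideal.span (Set.range (rel q t)) ≤ RingHom.ker g := by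
      rw [Ideal.span_le]
      rintro _ ⟨i, rfl⟩
      simpa [g, rel, sub_eq_zero] using hv i
    exact h1 ((h.2 p).mp hp)
  let ψ := RingHom.liftOfSurjective f h.1 ⟨g, hk⟩
  have hψ : ∀ p, ψ (f p) = g p := fun p => RingHom.liftOfSurjective_comp_apply f h.1 ⟨g, hk⟩ p
  refine ⟨ψ, fun a => ?_, fun a => ?_⟩
  · simpa [f, g] using hψ (MvPolynomial.C a)
  · simpa [f, g] using hψ (MvPolynomial.X a)

theorem pres_ext (h : Pres φ u q t) {R : Type} [CommRing R] {ψ ψ' : B →+* R}
    (h1 : ∀ a, ψ (φ a) = ψ' (φ a)) (h2 : ∀ a, ψ (u a) = ψ' (u a)) (b : B) : ψ b = ψ' b := by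
  obtain ⟨p, rfl⟩ := h.1 b
  have : ψ.comp (MvPolynomial.eval₂Hom φ u) = ψ'.comp (MvPolynomial.eval₂Hom φ u) := by
    ext a
    · simpa using h1 a
    · simpa using h2 a
  exact RingHom.congr_fun this p

/-- A one-parameter deformation of a point detects non-nilpotent elements. -/
theorem deform (h : Pres φ u q t) {K : Type} [Field K] (e : B →+* K)
    (v : Option (Fin D) → PowerSeries K)
    (hv : ∀ i, (v none - PowerSeries.C (e (φ (q i)))) * v (some i) = PowerSeries.C (e (φ (t i))))
    (hc : ∀ a, PowerSeries.constantCoeff (v a) = e (u a)) :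
    ∃ ψ : B →+* PowerSeries K, (∀ a, ψ (φ a) = PowerSeries.C (e (φ a))) ∧ (∀ a, ψ (u a) = v a) ∧
      ∀ g b : B, ∀ n m : ℕ, e g ≠ 0 → g ^ n * b ^ m = 0 → ψ b = 0 := by
  obtain ⟨ψ, h1, h2⟩ := pres_lift h (PowerSeries.C.comp (e.comp φ)) v hv
  refine ⟨ψ, h1, h2, fun g b n m hg hb => ?_⟩
  have h3 : PowerSeries.constantCoeff (ψ g) = e g :=
    pres_ext h (ψ := PowerSeries.constantCoeff.comp ψ) (ψ' := e) (fun a => by simp [h1])
      (fun a => by simp [h2, hc]) g
  have h4 : ψ g ≠ 0 := fun h0 => hg (by rw [← h3, h0, map_zero])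
  have h5 := congrArg ψ hb
  rw [map_mul, map_pow, map_pow, map_zero] at h5
  exact eq_zero_of_pow_eq_zero ((mul_eq_zero.mp h5).resolve_left (pow_ne_zero _ h4))

/-- `z - c` is not nilpotent near a point of the main component. -/
theorem not_nil_main (h : Pres φ u q t) {K : Type} [Field K] (e : B →+* K)
    (he : ∀ i, e (u none - φ (q i)) = 0 → e (u (some i)) = 0) (c : A) (g : B) (n m : ℕ)
    (hg : e g ≠ 0) (hb : g ^ n * (u none - φ c) ^ m = 0) : False := by
  let v : Option (Fin D) → PowerSeries K := fun a => a.elim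
    (PowerSeries.C (e (u none)) + PowerSeries.X) fun i => PowerSeries.C (e (φ (t i))) *
      (PowerSeries.C (e (u none - φ (q i))) + PowerSeries.X)⁻¹
  have hr : ∀ i, e (φ (t i)) = e (u none - φ (q i)) * e (u (some i)) := fun i => by
    rw [← map_mul, pres_rel h]
  obtain ⟨ψ, h1, h2, h3⟩ := deform h e v (fun i => by
    by_cases h0 : e (u none - φ (q i)) = 0
    · simp [v, hr, he i h0]
    · have := PowerSeries.mul_inv_cancel
        (PowerSeries.C (e (u none - φ (q i))) + PowerSeries.X) (by simpa using h0)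
      simp only [v, Option.elim]
      rw [map_sub, map_sub] at this ⊢
      linear_combination PowerSeries.C (e (φ (t i))) * this) (by
    rintro (_ | i)
    · simp [v]
    · by_cases h0 : e (u none - φ (q i)) = 0
      · simp [v, hr, he i h0]
      · simp only [v, Option.elim, map_mul, PowerSeries.constantCoeff_inv, map_add,
          PowerSeries.constantCoeff_C, PowerSeries.constantCoeff_X, add_zero, hr]
        field_simp)
  have h4 := congrArg (PowerSeries.coeff 1) (h3 g _ n m hg hb)
  simp [h1, h2, v] at h4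

/-- `w_l` is not nilpotent near a point of the tail number `l`. -/
theorem not_nil_tail (h : Pres φ u q t) {K : Type} [Field K] (e : B →+* K) (l : Fin D)
    (he : e (u none - φ (q l)) = 0) (g : B) (n m : ℕ)
    (hg : e g ≠ 0) (hb : g ^ n * u (some l) ^ m = 0) : False := by
  let v : Option (Fin D) → PowerSeries K := fun a =>
    PowerSeries.C (e (u a)) + if a = some l then PowerSeries.X else 0
  have hr : ∀ i, e (φ (t i)) = e (u none - φ (q i)) * e (u (some i)) := fun i => by
    rw [← map_mul, pres_rel h]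
  obtain ⟨ψ, h1, h2, h3⟩ := deform h e v (fun i => by
    by_cases h0 : i = l
    · subst h0
      have : v none - PowerSeries.C (e (φ (q i))) = 0 := by
        rw [map_sub] at he
        simp [v, sub_eq_zero.mp he]
      rw [this, hr, he]
      simp
    · simp [v, hr, h0]) (fun a => by
    simp only [v]
    split_ifs <;> simp)
  have h4 := congrArg (PowerSeries.coeff 1) (h3 g _ n m hg hb)
  simp [h2, v] at h4

/-- Products of distinct `w`'s stay in the span. -/
theorem prod_mem {ι : Type} [DecidableEq ι] [Algebra A B] (w : ι → B)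
    (hw : ∀ k l, k ≠ l → ∃ a b : A, w k * w l = a • w k + b • w l) (ν : ι → A) (J : Finset ι) :
    (∏ j ∈ J, (1 - ν j • w j)) - 1 ∈ Submodule.span A (w '' J) ∧
      ∀ l, l ∉ J → w l * ∏ j ∈ J, (1 - ν j • w j) ∈ Submodule.span A (w '' ↑(insert l J)) := by
  have key : ∀ (J : Finset ι) (l : ι), l ∉ J → ∀ b ∈ Submodule.span A (w '' J),
      w l * b ∈ Submodule.span A (w '' ↑(insert l J)) := by
    intro J l hl b hb
    induction hb using Submodule.span_induction with
    | mem x hx =>
      obtain ⟨k, hk, rfl⟩ := hx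
      obtain ⟨a, b, hab⟩ := hw l k fun e => hl (e ▸ hk)
      rw [hab]
      exact add_mem (Submodule.smul_mem _ _ (Submodule.subset_span ⟨l, by simp, rfl⟩))
        (Submodule.smul_mem _ _ (Submodule.subset_span ⟨k, by simp [Finset.mem_coe.mp hk], rfl⟩))
    | zero => simp
    | add x y _ _ hx hy => rw [mul_add]; exact add_mem hx hy
    | smul a x _ hx => rw [mul_smul_comm]; exact Submodule.smul_mem _ _ hx
  have h2 : ∀ J : Finset ι, (∏ j ∈ J, (1 - ν j • w j)) - 1 ∈ Submodule.span A (w '' J) →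
      ∀ l, l ∉ J → w l * ∏ j ∈ J, (1 - ν j • w j) ∈
        Submodule.span A (w '' ↑(insert l J)) := by
    intro J hJ l hl
    have := add_mem (key J l hl _ hJ)
      (Submodule.subset_span (R := A) (s := w '' ↑(insert l J)) (a := w l) ⟨l, by simp, rfl⟩)
    simpa [mul_sub] using this
  suffices h1 : (∏ j ∈ J, (1 - ν j • w j)) - 1 ∈ Submodule.span A (w '' J) from ⟨h1, h2 J h1⟩
  induction J using Finset.induction_on with
  | empty => simp
  | insert l J hl ih =>
    rw [Finset.prod_insert hl]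
    have h3 := sub_mem (Submodule.span_mono (Set.image_mono (by simp)) ih)
      (Submodule.smul_mem _ (ν l) (h2 J ih l hl))
    have : (1 - ν l • w l) * ∏ j ∈ J, (1 - ν j • w j) - 1 =
        (∏ j ∈ J, (1 - ν j • w j)) - 1 - ν l • (w l * ∏ j ∈ J, (1 - ν j • w j)) := by
      rw [← smul_mul_assoc]
      ring
    rw [this]
    exact h3

/-- The matrix of the change of coordinates. -/
theorem exists_gamma (h : Pres φ u q t) (hq : Good q) (σ : Equiv.Perm (Fin D))
    (ν lam : Fin D → A) :
    ∃ γ : Matrix (Fin (D + 1)) (Fin (D + 1)) A,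
      (∀ i, γ i 0 = (1 : Matrix (Fin (D + 1)) (Fin (D + 1)) A) i 0) ∧
      (γ.map φ *ᵥ yv u) 0 = ∏ j, (1 - φ (ν j) * u (some (σ j))) ∧
      ∀ i : Fin D, (γ.map φ *ᵥ yv u) i.succ = φ (lam i) * u (some (σ i)) *
        ∏ j ∈ Finset.univ.erase i, (1 - φ (ν j) * u (some (σ j))) := by
  letI := φ.toAlgebra
  have hs : ∀ (a : A) (b : B), a • b = φ a * b := fun a b => rfl
  let w : Fin D → B := fun j => u (some (σ j))
  have hw : ∀ k l, k ≠ l → ∃ a b : A, w k * w l = a • w k + b • w l := by
    intro k l hkl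
    obtain ⟨c, hc⟩ := (hq.1 (σ k) (σ l) fun e => hkl (σ.injective e)).exists_left_inv
    refine ⟨c * t (σ l), -(c * t (σ k)), ?_⟩
    have hc' := congrArg φ hc
    rw [map_mul, map_sub, map_one] at hc'
    simp only [hs, w, map_mul, map_neg, ← pres_rel h]
    linear_combination (-(u (some (σ k)) * u (some (σ l)))) * hc'
  have hle : ∀ J : Finset (Fin D), Submodule.span A (w '' J) ≤
      Submodule.span A (Set.range fun l => u (some l)) := fun J =>
    Submodule.span_mono (by rintro _ ⟨j, -, rfl⟩; exact ⟨σ j, rfl⟩)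
  obtain ⟨r0, hr0⟩ := (Submodule.mem_span_range_iff_exists_fun A).mp
    (hle _ (prod_mem w hw ν Finset.univ).1)
  have h2 := fun i : Fin D => (Submodule.mem_span_range_iff_exists_fun A).mp
    (Submodule.smul_mem _ (lam i)
      (hle _ ((prod_mem w hw ν (Finset.univ.erase i)).2 i (by simp))))
  choose r hr using h2
  refine ⟨Matrix.of (Fin.cons (Fin.cons 1 r0) fun i => Fin.cons 0 (r i)), fun i => ?_, ?_,
    fun i => ?_⟩
  · refine Fin.cases ?_ (fun i => ?_) i
    · simp
    · simp [Matrix.one_apply_ne (Fin.succ_ne_zero i)]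
  · simp only [hs, w] at hr0
    simp [Matrix.mulVec, dotProduct, Fin.sum_univ_succ, yv, hr0]
  · have := hr i
    simp only [hs, w] at this
    simp [Matrix.mulVec, dotProduct, Fin.sum_univ_succ, yv, this, mul_assoc]

end Alg

end Pool.Agent.MP_52bf41_ag.H4
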