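import Pool.Agent.MP_52bf41_ag.H4.M3Alg

/-! Local lemmas on functions near the poles of a standard atlas. -/

open AlgebraicGeometry CategoryTheory IsLocalRing Polynomial Matrix

namespace Pool.Agent.MP_52bf41_ag.H4

open H12

section Gen

variable {A : Type} [CommRing A] {C : Scheme.{0}} {p : C ⟶ Spec (.of A)}

theorem away_surj {R S : Type} [CommRing R] [CommRing S] {φ : R →+* S} {g : R}
    (h : IsAway φ g) (z : S) : ∃ (n : ℕ) (a : R), z * φ g ^ n = φ a := by
  letI := φ.toAlgebra
  haveI : IsLocalization.Away g S := h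
  exact IsLocalization.Away.surj g z

theorem away_zero {R S : Type} [CommRing R] [CommRing S] {φ : R →+* S} {g : R}
    (h : IsAway φ g) {z : R} (hz : φ z = 0) : ∃ n : ℕ, g ^ n * z = 0 := by
  letI := φ.toAlgebra
  haveI : IsLocalization.Away g S := h
  obtain ⟨n, hn⟩ := IsLocalization.Away.exists_of_eq (S := S) g (a := z) (b := 0)
    (by rw [map_zero]; exact hz)
  exact ⟨n, by simpa using hn⟩

theorem exists_val {U : C.Opens} {x : C} (hx : x ∈ U) :
    ∃ (K : Type) (_ : Field K) (e : Γ(C, U) →+* K), ∀ b, e b = 0 ↔ x ∉ C.basicOpen b :=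
  ⟨C.residueField x, inferInstance, (C.evaluation U x hx).hom,
    fun b => C.evaluation_eq_zero_iff_notMem_basicOpen x hx b⟩

/-- A function which vanishes near `x` is killed by a function which is invertible at `x`. -/
theorem kill_of_res {U N : C.Opens} (hU : IsAffineOpen U) (hN : N ≤ U) {x : C} (hx : x ∈ N)
    {b : Γ(C, U)} (hb : res hN b = 0) :
    ∃ (g : Γ(C, U)) (n : ℕ), x ∈ C.basicOpen g ∧ g ^ n * b = 0 := by
  obtain ⟨g, hg, hxg⟩ := hU.exists_basicOpen_le ⟨x, hx⟩ (hN hx)
  obtain ⟨n, hn⟩ := away_zero (isAway_res hU g (C.basicOpen_le g) rfl) (z := b)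
    (by rw [← res_res hN hg, hb, map_zero])
  exact ⟨g, n, hxg, hn⟩

theorem split_of_bij {U : C.Opens} {s : Γ(C, U)}
    (hb : Function.Surjective ((Ideal.Quotient.mk (Ideal.span {s})).comp (alg p U)))
    (b : Γ(C, U)) : ∃ c r, b = alg p U c + r * s := by
  obtain ⟨c, hc⟩ := hb (Ideal.Quotient.mk _ b)
  obtain ⟨r, hr⟩ := Ideal.mem_span_singleton'.mp (Ideal.Quotient.eq.mp hc.symm)
  exact ⟨c, r, by rw [hr]; ring⟩

/-- A function vanishing along a section is locally divisible by the local parameter. -/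
theorem kerloc [IsLocalRing A] {U N : C.Opens} (hU : IsAffineOpen U) {s : Γ(C, U)}
    (hb : Function.Surjective ((Ideal.Quotient.mk (Ideal.span {s})).comp (alg p U)))
    {τ : Spec (.of A) ⟶ C} (hτ : τ ≫ p = 𝟙 _) (h : ⊤ ≤ τ ⁻¹ᵁ U) (hs : ev τ h s = 0)
    (hN : ⊤ ≤ τ ⁻¹ᵁ N) {r : Γ(C, N)} (hr : ev τ hN r = 0) :
    ∃ (N' : C.Opens) (h1 : N' ≤ N) (h2 : N' ≤ U) (r' : Γ(C, N')), τ (closedPoint A) ∈ N' ∧
      res h1 r = r' * res h2 s := by
  have hxU : τ (closedPoint A) ∈ U := h (Set.mem_univ _)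
  have hxN : τ (closedPoint A) ∈ N := hN (Set.mem_univ _)
  obtain ⟨g, hg, hxg⟩ := hU.exists_basicOpen_le ⟨_, hxN⟩ hxU
  obtain ⟨n, a, ha⟩ := away_surj (isAway_res hU g (C.basicOpen_le g) rfl) (res hg r)
  obtain ⟨c, r', rfl⟩ := split_of_bij hb a
  have hc : c = 0 := by
    have := congrArg (ev τ (top_le_preimage τ hxg)) ha
    simp only [map_mul, map_pow, map_add, ev_res, res_alg, ev_alg τ hτ] at this
    rw [hr, hs] at this
    simpa using this.symm
  obtain ⟨v, hv⟩ := ((isUnit_of_le_basicOpen (C.basicOpen_le g) g le_rfl).pow n).exists_right_inv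
  refine ⟨_, hg, C.basicOpen_le g, res (C.basicOpen_le g) r' * v, hxg, ?_⟩
  rw [hc] at ha
  simp only [map_zero, zero_add, map_mul] at ha
  linear_combination v * ha - res hg r * hv

variable [IsLocalRing A] [IsArtinianRing A]

theorem mem_alg_iff {U : C.Opens} {x : C} (hx : x ∈ U) (c : A) :
    x ∈ C.basicOpen (alg p U c) ↔ IsUnit c := by
  constructor
  · intro h
    by_contra hc
    rw [basicOpen_of_isNilpotent ((isNilpotent_of_not_isUnit hc).map _)] at h
    exact h
  · intro h
    rw [basicOpen_of_isUnit (h.map _)]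
    exact hx

theorem not_mem_sub {U : C.Opens} {b b' : Γ(C, U)} {x : C}
    (h : x ∉ C.basicOpen b) (h' : x ∉ C.basicOpen b') : x ∉ C.basicOpen (b - b') := by
  have := not_mem_basicOpen_add h (not_mem_basicOpen_mul (-1) h')
  rwa [neg_one_mul, ← sub_eq_add_neg] at this

/-- The value of a function at a point is well defined modulo the maximal ideal. -/
theorem val_iff {U : C.Opens} {x : C} (hx : x ∈ U) {Z : Γ(C, U)} {c : A}
    (h : x ∉ C.basicOpen (Z - alg p U c)) (c' : A) :
    x ∈ C.basicOpen (Z - alg p U c') ↔ IsUnit (c - c') := by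
  rw [← mem_alg_iff (p := p) hx, ← not_iff_not]
  constructor
  · intro h'
    have := not_mem_sub h' h
    rwa [sub_sub_sub_cancel_left, ← map_sub] at this
  · intro h'
    have := not_mem_basicOpen_add h h'
    rwa [map_sub, sub_add_sub_cancel] at this

/-- A local parameter vanishes at one point only. -/
theorem uniq_pt {U : C.Opens} (hU : IsAffineOpen U) {s : Γ(C, U)}
    (hb : Function.Surjective ((Ideal.Quotient.mk (Ideal.span {s})).comp (alg p U)))
    {y y' : C} (hy : y ∈ U) (hy' : y' ∈ U) (h : y ∉ C.basicOpen s) (h' : y' ∉ C.basicOpen s) :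
    y = y' := by
  have key : ∀ {y y' : C}, y ∈ U → y' ∈ U → y ∉ C.basicOpen s → y' ∉ C.basicOpen s →
      ∀ V : C.Opens, y ∈ V → y' ∈ V := by
    intro y y' hy hy' h h' V hV
    obtain ⟨g, hg, hyg⟩ := hU.exists_basicOpen_le ⟨y, hV⟩ hy
    obtain ⟨c, r, rfl⟩ := split_of_bij hb g
    apply hg
    have e : alg p U c + r * s - alg p U c = r * s := by ring
    have h1 := (val_iff (p := p) hy (Z := alg p U c + r * s) (c := c)
      (by rw [e]; exact not_mem_basicOpen_mul r h) 0)
    have h2 := (val_iff (p := p) hy' (Z := alg p U c + r * s) (c := c)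
      (by rw [e]; exact not_mem_basicOpen_mul r h') 0)
    rw [map_zero, sub_zero] at h1 h2
    exact h2.mpr (h1.mp hyg)
  exact (inseparable_iff_forall_isOpen.mpr fun V hV =>
    ⟨key hy hy' h h' ⟨V, hV⟩, key hy' hy h' h ⟨V, hV⟩⟩).eq

end Gen

section Std

variable {A : Type} [CommRing A] {D : ℕ} {F : Fam (Spec (.of A))} {q t : Fin D → A}

/-- The complement of the pole number `a`. -/
def V (S : Std F q t) (a : Option (Fin D)) : F.C.Opens :=
  S.O0 ⊔ ⨆ b : {b // b ≠ a}, S.O b.1

theorem O0_le_V (S : Std F q t) (a : Option (Fin D)) : S.O0 ≤ V S a := le_sup_left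

theorem O_le_V (S : Std F q t) {a b : Option (Fin D)} (h : b ≠ a) : S.O b ≤ V S a :=
  (le_iSup (fun b : {b // b ≠ a} => S.O b.1) ⟨b, h⟩).trans le_sup_right

theorem exists_chart (S : Std F q t) {y : F.C} (h : y ∉ S.O0) : ∃ a, y ∈ S.O a := by
  have : y ∈ S.O0 ⊔ iSup S.O := by rw [S.cover]; trivial
  exact TopologicalSpace.Opens.mem_iSup.mp (this.resolve_left h)

theorem not_mem_V (S : Std F q t) {a : Option (Fin D)} {y : F.C} :
    y ∉ V S a ↔ y ∈ S.O a ∧ y ∉ S.O0 := by
  constructor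
  · intro h
    have h0 : y ∉ S.O0 := fun h0 => h (O0_le_V S a h0)
    obtain ⟨b, hb⟩ := exists_chart S h0
    by_cases e : b = a
    · exact ⟨e ▸ hb, h0⟩
    · exact absurd (O_le_V S e hb) h
  · rintro ⟨h, h0⟩ (h1 | h1)
    · exact h0 h1
    · obtain ⟨b, hb⟩ := TopologicalSpace.Opens.mem_iSup.mp h1
      exact h0 (S.disj _ _ b.2 ⟨hb, h⟩)

theorem mem_O0_iff (S : Std F q t) {a : Option (Fin D)} {y : F.C} (h : y ∈ S.O a) :
    y ∈ S.O0 ↔ y ∈ F.C.basicOpen (S.s a) := by
  rw [← S.inter a]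
  exact ⟨fun h0 => ⟨h0, h⟩, fun h0 => h0.1⟩

/-- Extension of a function on the main chart over all poles but one. -/
theorem exists_ext (S : Std F q t) (a : Option (Fin D)) (b0 : Γ(F.C, S.O0))
    (h : ∀ b, b ≠ a → ∃ v : Γ(F.C, S.O b),
      res (inf_le_left : S.O0 ⊓ S.O b ≤ _) b0 = res inf_le_right v) :
    ∃ G : Γ(F.C, V S a), res (O0_le_V S a) G = b0 := by
  choose v hv using h
  let U : Option {b // b ≠ a} → F.C.Opens := fun o => o.elim S.O0 fun b => S.O b.1
  have hU : ∀ o, U o ≤ V S a := by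
    rintro (_ | b)
    · exact O0_le_V S a
    · exact O_le_V S b.2
  obtain ⟨G, hG⟩ := exists_glue (V := V S a) U hU
    (sup_le (le_iSup U none) (iSup_le fun b => le_iSup U (some b)))
    (fun o => match o with
      | none => b0
      | some b => v b.1 b.2) (by
      rintro (_ | b) (_ | b')
      · rfl
      · exact hv _ _
      · have := congrArg (res (le_of_eq (inf_comm (S.O b.1) S.O0))) (hv b.1 b.2)
        simp only [res_res] at this
        exact this.symm
      · by_cases e : b = b'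
        · subst e
          rfl
        · have hd := S.disj b.1 b'.1 fun e' => e (Subtype.ext e')
          have h1 := congrArg (res (le_inf hd inf_le_left)) (hv b.1 b.2)
          have h2 := congrArg (res (le_inf hd inf_le_right)) (hv b'.1 b'.2)
          simp only [res_res] at h1 h2
          exact h1.symm.trans h2)
  exact ⟨G, hG none⟩

theorem dense_eq {C : Scheme.{0}} {W N : C.Opens} (hW : DenseOpen W) {b b' : Γ(C, N)}
    (h : res (inf_le_left : N ⊓ W ≤ N) b = res inf_le_left b') : b = b' := hW N h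

end Std

end Pool.Agent.MP_52bf41_ag.H4
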